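import Pool.Agent.H82.PD.Targets
import Pool.Agent.H14.LS.Sym

/-!
Board pdp_modules, module BSC: Bessel potentials of Schwartz functions.
-/

set_option autoImplicit false

namespace Pool.Agent.H65.PD

open MeasureTheory Set FourierTransform Pool.Agent.H82.KL
open scoped ENNReal NNReal SchwartzMap

theorem schwartz_ext_fourier {d : ℕ} {f g : 𝓢(Pool.Agent.H82.KL.EE d, ℂ)}
    (h : ∀ ξ, 𝓕 (f : Pool.Agent.H82.KL.EE d → ℂ) ξ = 𝓕 (g : Pool.Agent.H82.KL.EE d → ℂ) ξ) :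
    f = g := by
  have h1 : 𝓕 f = 𝓕 g := by
    ext ξ
    rw [SchwartzMap.fourier_coe, SchwartzMap.fourier_coe, h]
  have h2 := congrArg (fun z : 𝓢(Pool.Agent.H82.KL.EE d, ℂ) => 𝓕⁻ z) h1
  simpa using h2

theorem fourier_add_two {d : ℕ} (f g : 𝓢(Pool.Agent.H82.KL.EE d, ℂ))
    (ξ : Pool.Agent.H82.KL.EE d) :
    𝓕 ((f + (2 : ℂ) • g : 𝓢(Pool.Agent.H82.KL.EE d, ℂ)) : Pool.Agent.H82.KL.EE d → ℂ) ξ =
      𝓕 (f : Pool.Agent.H82.KL.EE d → ℂ) ξ + 2 * 𝓕 (g : Pool.Agent.H82.KL.EE d → ℂ) ξ := by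
  have h1 : 𝓕 (f + (2 : ℂ) • g) = 𝓕 f + (2 : ℂ) • 𝓕 g := by
    rw [FourierTransform.fourier_add, FourierTransform.fourier_smul]
  have h2 := congrArg (fun z : 𝓢(Pool.Agent.H82.KL.EE d, ℂ) => z ξ) h1
  simp only [add_apply, smul_apply, smul_eq_mul,
    SchwartzMap.fourier_coe] at h2
  exact h2

theorem bs_mul {d : ℕ} (a b : ℝ) (ξ : Pool.Agent.H82.KL.EE d) :
    Pool.Agent.H14.LS.bs a ξ * Pool.Agent.H14.LS.bs b ξ = Pool.Agent.H14.LS.bs (a + b) ξ := by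
  unfold Pool.Agent.H14.LS.bs
  have hX : 0 < 1 + 4 * Real.pi ^ 2 * ‖ξ‖ ^ 2 := by positivity
  rw [← Complex.ofReal_mul, ← Real.rpow_add hX]
  congr 2
  ring

theorem pf_BSC : Pool.Agent.H82.PD.T_BSC := by
  intro d s κ u g
  obtain ⟨U, hU1, hU2⟩ := Pool.Agent.H14.LS.besS_schwartz s u
  obtain ⟨G1, hG1, hG1'⟩ := Pool.Agent.H14.LS.besS_schwartz (s - κ) u
  obtain ⟨G2, hG2, hG2'⟩ := Pool.Agent.H14.LS.besS_schwartz (-κ) g
  obtain ⟨G3, hG3, hG3'⟩ := Pool.Agent.H14.LS.besS_schwartz (-κ) (U + (2 : ℂ) • g)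
  refine ⟨U + (2 : ℂ) • g, ?_, ?_⟩
  · intro x
    rw [add_apply, smul_apply, smul_eq_mul, hU2]
    rfl
  · intro x
    have h : G3 = G1 + (2 : ℂ) • G2 := by
      apply schwartz_ext_fourier
      intro ξ
      rw [hG3, fourier_add_two, fourier_add_two, hU1, hG1, hG2, mul_add, ← mul_assoc, bs_mul]
      have : -κ + s = s - κ := by ring
      rw [this]
      ring
    have h3 : Pool.Agent.H84.BR.CD.besS (-κ)
        ((U + (2 : ℂ) • g : 𝓢(Pool.Agent.H82.KL.EE d, ℂ)) : Pool.Agent.H82.KL.EE d → ℂ) x =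
        G3 x := (hG3' x).symm
    have h1 : Pool.Agent.H84.BR.CD.besS (s - κ) u x = G1 x := (hG1' x).symm
    have h2 : Pool.Agent.H84.BR.CD.besS (-κ) g x = G2 x := (hG2' x).symm
    rw [h3, h1, h2, h, add_apply, smul_apply, smul_eq_mul]

end Pool.Agent.H65.PD
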