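import Pool.Agent.H82.PD.Targets
import Pool.Agent.H90.C1.RES

/-!
Board pdp_modules, module RSC: the local kernel inequality at frequency `λ` and time one.
-/

set_option autoImplicit false

namespace Pool.Agent.H65.PD

open MeasureTheory Set Pool.Agent.H82.KL Pool.Agent.H94.C1 Pool.Agent.H82.PD Pool.Agent.H90.C1
open scoped ENNReal NNReal SchwartzMap

theorem kaB_le {d : ℕ} (lam : ℝ) (hl : 0 < lam) (g : EE d → ℝ≥0∞) (x : EE d) :
    kaB (8 * lam) lam (fun y => g (lam⁻¹ • y)) (lam • x) ≤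
      ENNReal.ofReal (lam ^ (d : ℝ)) * k2B g x := by
  unfold kaB k2B
  rw [← lintegral_indicator Metric.isClosed_closedBall.measurableSet,
    ← lintegral_indicator Metric.isClosed_closedBall.measurableSet]
  have h1 := lintegral_smul (lam⁻¹) (inv_pos.2 hl) (fun y : EE d =>
    (Metric.closedBall x 8).indicator
      (fun y => g y * (ENNReal.ofReal (lam ^ 2) * wt (lam • x - lam • y))) y)
  have h2 : ∀ y : EE d, lam • (lam⁻¹ • y) = y := fun y => by
    rw [smul_smul, mul_inv_cancel₀ hl.ne', one_smul]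
  have h3 : ∀ y : EE d, (Metric.closedBall (lam • x) (8 * lam)).indicator
      (fun y => g (lam⁻¹ • y) * (ENNReal.ofReal (lam ^ 2) * wt (lam • x - y))) y =
      (Metric.closedBall x 8).indicator
      (fun y => g y * (ENNReal.ofReal (lam ^ 2) * wt (lam • x - lam • y))) (lam⁻¹ • y) := by
    intro y
    have h4 : y ∈ Metric.closedBall (lam • x) (8 * lam) ↔ lam⁻¹ • y ∈ Metric.closedBall x 8 := by
      rw [Metric.mem_closedBall, Metric.mem_closedBall, dist_eq_norm, dist_eq_norm]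
      have h5 : y - lam • x = lam • (lam⁻¹ • y - x) := by
        rw [smul_sub, h2]
      rw [h5, norm_smul, Real.norm_of_nonneg hl.le, mul_comm lam]
      exact mul_le_mul_iff_of_pos_right hl
    by_cases h6 : y ∈ Metric.closedBall (lam • x) (8 * lam)
    · rw [indicator_of_mem h6, indicator_of_mem (h4.1 h6), h2]
    · rw [indicator_of_notMem h6, indicator_of_notMem (fun h => h6 (h4.2 h))]
  simp only [h3]
  rw [h1, Real.inv_rpow hl.le, Real.rpow_neg hl.le, inv_inv]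
  refine mul_le_mul' le_rfl (lintegral_mono fun y => ?_)
  refine indicator_le_indicator ?_
  refine mul_le_mul' le_rfl ?_
  rw [← smul_sub]
  exact wt_le lam hl (x - y)

theorem pf_RSC (h1 : T_LCK) (h2 : Pool.Agent.H94.C1.T_SCL) : T_RSC := by
  intro d M p a hd hp ha
  obtain ⟨C, hC⟩ := h1 d M p a hd hp ha
  refine ⟨C, fun lam ε u hl hε => ?_⟩
  have hl0 : 0 < lam := by linarith
  have hp0 : 0 < p := by linarith
  have hp2 : 0 < p - 2 := by linarith
  set f : EE d → ℂ := fun y => u (lam⁻¹ • y) with hf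
  have hfu : ∀ x, f (lam • x) = u x := by
    intro x
    rw [hf]
    simp only
    rw [smul_smul, inv_mul_cancel₀ hl0.ne', one_smul]
  have hBM : BM f := by
    refine ⟨?_, ?_⟩
    · have : Continuous f := u.continuous.comp (continuous_const_smul _)
      exact this.measurable
    · obtain ⟨B, hB⟩ := u.decay 0 0
      refine ⟨B, fun y => ?_⟩
      have := hB.2 (lam⁻¹ • y)
      simpa using this
  have h1 := hC lam ε f hl hε hBM
  -- the left side
  have h2 : ∫⁻ t in Icc (1 : ℝ) 2, ∫⁻ x : EE d, ‖HP a ε lam t u x‖ₑ ^ p =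
      ENNReal.ofReal (lam ^ (-(d : ℝ) - 1)) *
        ∫⁻ t in Icc lam (2 * lam), ∫⁻ x : EE d, ‖W a f (x, ε * t)‖ₑ ^ p := by
    have h3 : ∀ t : ℝ, ∫⁻ x : EE d, ‖HP a ε lam t u x‖ₑ ^ p =
        ENNReal.ofReal (lam ^ (-(d : ℝ))) * ∫⁻ x : EE d, ‖W a f (x, ε * (lam * t))‖ₑ ^ p := by
      intro t
      rw [← lintegral_smul lam hl0]
      refine lintegral_congr fun x => ?_
      rw [h2 d a ε lam t u x ha hl0]
    simp only [h3]
    rw [lintegral_const_mul' _ _ ENNReal.ofReal_ne_top,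
      lintegral_mul lam hl0 (fun t => ∫⁻ x : EE d, ‖W a f (x, ε * t)‖ₑ ^ p), ← mul_assoc,
      ← ENNReal.ofReal_mul (by positivity), ← Real.rpow_add hl0]
    rfl
  -- the change of variables on the right side
  have hcv : ∀ G : EE d → ℝ≥0∞, ∫⁻ x, G x =
      ENNReal.ofReal (lam ^ (d : ℝ)) * ∫⁻ x, G (lam • x) := by
    intro G
    rw [lintegral_smul lam hl0 G, ← mul_assoc, ← ENNReal.ofReal_mul (by positivity),
      ← Real.rpow_add hl0, add_neg_cancel, Real.rpow_zero, ENNReal.ofReal_one, one_mul]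
  rw [h2]
  refine (mul_le_mul' le_rfl h1).trans ?_
  rw [mul_add]
  refine add_le_add ?_ ?_
  · unfold KB
    split_ifs with h3
    · have h4 : ∫⁻ x, ‖f x‖ₑ ^ 2 * kaB (8 * lam) lam (fun y => ‖f y‖ₑ) x ^ (p - 2) ≤
          ENNReal.ofReal (lam ^ ((d : ℝ) + d * (p - 2))) *
            ∫⁻ x, ‖u x‖ₑ ^ 2 * (k2B (fun y => ‖u y‖ₑ) x) ^ (p - 2) := by
        rw [hcv, Real.rpow_add hl0, ENNReal.ofReal_mul (by positivity), mul_assoc]
        refine mul_le_mul' le_rfl ?_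
        rw [← lintegral_const_mul' _ _ ENNReal.ofReal_ne_top]
        refine lintegral_mono fun x => ?_
        simp only
        rw [hfu]
        have h5 := kaB_le lam hl0 (fun y => ‖u y‖ₑ) x
        calc ‖u x‖ₑ ^ 2 * kaB (8 * lam) lam (fun y => ‖f y‖ₑ) (lam • x) ^ (p - 2)
            ≤ ‖u x‖ₑ ^ 2 * (ENNReal.ofReal (lam ^ (d : ℝ)) * k2B (fun y => ‖u y‖ₑ) x) ^ (p - 2) :=
              mul_le_mul' le_rfl (ENNReal.rpow_le_rpow h5 hp2.le)
          _ = _ := by
              rw [ENNReal.mul_rpow_of_nonneg _ _ hp2.le,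
                ENNReal.ofReal_rpow_of_pos (by positivity), ← Real.rpow_mul hl0.le]
              ring
      calc ENNReal.ofReal (lam ^ (-(d : ℝ) - 1)) * (C *
            (ENNReal.ofReal (lam ^ (3 - p - ((d : ℝ) - 1) * (p - 2) / 2)) *
            ∫⁻ x, ‖f x‖ₑ ^ 2 * kaB (8 * lam) lam (fun y => ‖f y‖ₑ) x ^ (p - 2)))
          ≤ ENNReal.ofReal (lam ^ (-(d : ℝ) - 1)) * (C *
            (ENNReal.ofReal (lam ^ (3 - p - ((d : ℝ) - 1) * (p - 2) / 2)) *
            (ENNReal.ofReal (lam ^ ((d : ℝ) + d * (p - 2))) *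
            ∫⁻ x, ‖u x‖ₑ ^ 2 * (k2B (fun y => ‖u y‖ₑ) x) ^ (p - 2)))) := by gcongr
        _ = C * (ENNReal.ofReal (lam ^ (-(d : ℝ) - 1)) *
            ENNReal.ofReal (lam ^ (3 - p - ((d : ℝ) - 1) * (p - 2) / 2)) *
            ENNReal.ofReal (lam ^ ((d : ℝ) + d * (p - 2)))) *
            ∫⁻ x, ‖u x‖ₑ ^ 2 * (k2B (fun y => ‖u y‖ₑ) x) ^ (p - 2) := by ring
        _ = _ := by
            rw [← ENNReal.ofReal_mul (by positivity), ← ENNReal.ofReal_mul (by positivity),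
              ← Real.rpow_add hl0, ← Real.rpow_add hl0]
            congr 4
            ring
    · have h4 : ∫⁻ x, ‖f x‖ₑ ^ 2 * kaB (8 * lam) lam (fun y => ‖f y‖ₑ ^ (p - 2)) x ≤
          ENNReal.ofReal (lam ^ ((d : ℝ) + d)) *
            ∫⁻ x, ‖u x‖ₑ ^ 2 * k2B (fun y => ‖u y‖ₑ ^ (p - 2)) x := by
        rw [hcv, Real.rpow_add hl0, ENNReal.ofReal_mul (by positivity), mul_assoc]
        refine mul_le_mul' le_rfl ?_
        rw [← lintegral_const_mul' _ _ ENNReal.ofReal_ne_top]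
        refine lintegral_mono fun x => ?_
        simp only
        rw [hfu]
        have h5 := kaB_le lam hl0 (fun y => ‖u y‖ₑ ^ (p - 2)) x
        calc ‖u x‖ₑ ^ 2 * kaB (8 * lam) lam (fun y => ‖f y‖ₑ ^ (p - 2)) (lam • x)
            ≤ ‖u x‖ₑ ^ 2 * (ENNReal.ofReal (lam ^ (d : ℝ)) * k2B (fun y => ‖u y‖ₑ ^ (p - 2)) x) :=
              mul_le_mul' le_rfl h5
          _ = _ := by ring
      calc ENNReal.ofReal (lam ^ (-(d : ℝ) - 1)) * (C *
            (ENNReal.ofReal (lam ^ (((d : ℝ) - 1) * (p - 3) - ((d : ℝ) - 1) * (p - 2) / 2)) *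
            ∫⁻ x, ‖f x‖ₑ ^ 2 * kaB (8 * lam) lam (fun y => ‖f y‖ₑ ^ (p - 2)) x))
          ≤ ENNReal.ofReal (lam ^ (-(d : ℝ) - 1)) * (C *
            (ENNReal.ofReal (lam ^ (((d : ℝ) - 1) * (p - 3) - ((d : ℝ) - 1) * (p - 2) / 2)) *
            (ENNReal.ofReal (lam ^ ((d : ℝ) + d)) *
            ∫⁻ x, ‖u x‖ₑ ^ 2 * k2B (fun y => ‖u y‖ₑ ^ (p - 2)) x))) := by gcongr
        _ = C * (ENNReal.ofReal (lam ^ (-(d : ℝ) - 1)) *
            ENNReal.ofReal (lam ^ (((d : ℝ) - 1) * (p - 3) - ((d : ℝ) - 1) * (p - 2) / 2)) *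
            ENNReal.ofReal (lam ^ ((d : ℝ) + d))) *
            ∫⁻ x, ‖u x‖ₑ ^ 2 * k2B (fun y => ‖u y‖ₑ ^ (p - 2)) x := by ring
        _ = _ := by
            rw [← ENNReal.ofReal_mul (by positivity), ← ENNReal.ofReal_mul (by positivity),
              ← Real.rpow_add hl0, ← Real.rpow_add hl0]
            congr 4
            ring
  · have h6 : ∫⁻ x, ‖f x‖ₑ ^ p = ENNReal.ofReal (lam ^ (d : ℝ)) * ∫⁻ x, ‖u x‖ₑ ^ p := by
      rw [hcv]
      simp only [hfu]
    rw [h6]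
    calc ENNReal.ofReal (lam ^ (-(d : ℝ) - 1)) * (C * ENNReal.ofReal ((lam ^ M)⁻¹) *
          (ENNReal.ofReal (lam ^ (d : ℝ)) * ∫⁻ x, ‖u x‖ₑ ^ p))
        = (ENNReal.ofReal (lam ^ (-(d : ℝ) - 1)) * ENNReal.ofReal (lam ^ (d : ℝ))) *
          (C * ENNReal.ofReal ((lam ^ M)⁻¹) * ∫⁻ x, ‖u x‖ₑ ^ p) := by ring
      _ ≤ 1 * (C * ENNReal.ofReal ((lam ^ M)⁻¹) * ∫⁻ x, ‖u x‖ₑ ^ p) := by
          refine mul_le_mul' ?_ le_rfl
          rw [← ENNReal.ofReal_mul (by positivity), ← Real.rpow_add hl0,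
            ← ENNReal.ofReal_one]
          apply ENNReal.ofReal_le_ofReal
          apply Real.rpow_le_one_of_one_le_of_nonpos hl
          linarith
      _ = _ := by rw [one_mul]

end Pool.Agent.H65.PD
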